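import Pool.Agent.Helper10.QRH.StC

/-!
# QRH-C1: sizes of cells and selection numbers
-/

set_option autoImplicit false
open scoped Classical

namespace Pool.Agent.Helper46.QRH

open Pool.Agent.Helper10.QRH

theorem sizeFacts (P : Par) (h : PhiFacts P) : SizeFacts P := by
  obtain ⟨hν, hν1, -, -, -, hd, -, hg, hg1, -⟩ := h.small
  refine ⟨⌈(100 : ℝ) / P.ν⌉₊ + 10, fun k hk => ?_⟩
  have hkR : (100 : ℝ) / P.ν + 10 ≤ k := by
    have h1 := Nat.le_ceil ((100 : ℝ) / P.ν)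
    have h2 : ((⌈(100 : ℝ) / P.ν⌉₊ + 10 : ℕ) : ℝ) ≤ k := by exact_mod_cast hk
    push_cast at h2
    linarith
  have hk0 : (0 : ℝ) ≤ k := by positivity
  have hνk : 100 ≤ P.ν * k := by
    have h1 : (100 : ℝ) / P.ν ≤ k := by linarith
    rw [div_le_iff₀ hν] at h1
    linarith
  have hk10 : (10 : ℝ) ≤ k := by
    have : (0 : ℝ) ≤ 100 / P.ν := by positivity
    linarith
  have hνk1 : P.ν * k ≤ k / 1600 := by
    have := mul_le_mul_of_nonneg_right hν1 hk0
    linarith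
  have hgk : P.g * k ≤ P.ν * k / 1000 := by
    have := mul_le_mul_of_nonneg_right hg1 hk0
    linarith
  have hgk0 : 0 ≤ P.g * k := by positivity
  have e1 : (P.e k : ℝ) ≤ k * (1/2 - P.d) := by
    refine Nat.floor_le ?_
    rw [hd]
    have : (0 : ℝ) ≤ 1/2 - P.ν / 100 := by linarith
    positivity
  have e2 : (k : ℝ) * (1/2 - P.d) - 1 < P.e k := by
    have := Nat.lt_floor_add_one ((k : ℝ) * (1/2 - P.d))
    unfold Par.e
    linarith
  have f1 : (P.e' k : ℝ) ≤ 4 * P.ν * k := Nat.floor_le (by positivity)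
  have f2 : 4 * P.ν * k - 1 < P.e' k := by
    have := Nat.lt_floor_add_one (4 * P.ν * (k : ℝ))
    unfold Par.e'
    linarith
  rw [hd] at e1 e2
  have hee : P.e' k + 1 ≤ P.e k := by
    have : ((P.e' k + 1 : ℕ) : ℝ) ≤ P.e k := by
      push_cast
      nlinarith
    exact_mod_cast this
  have hsub : ((P.e k - P.e' k : ℕ) : ℝ) = P.e k - P.e' k := by
    rw [Nat.cast_sub (by omega)]
  have hle : P.e k ≤ k := by
    have : (P.e k : ℝ) ≤ k := by nlinarith
    exact_mod_cast this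
  have hdiff : (1/2 - 4.02 * P.ν) * k ≤ ((P.e k - P.e' k : ℕ) : ℝ) := by
    rw [hsub]
    nlinarith
  have hX : (1 : ℝ) ≤ (2 : ℝ) ^ (P.e k - P.e' k) * (2 : ℝ) ^ (-(P.g * k)) := by
    rw [← Real.rpow_natCast, ← Real.rpow_add (by norm_num)]
    refine Real.one_le_rpow (by norm_num) ?_
    nlinarith
  have hpow : (2 : ℝ) ^ (-(P.g * k)) ≤ 1 :=
    Real.rpow_le_one_of_one_le_of_nonpos (by norm_num) (by linarith)
  refine ⟨hee, hle, ?_, ?_, ?_, ?_, ?_, ?_, ?_⟩
  · rw [← Real.rpow_natCast]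
    refine Real.rpow_le_rpow_of_exponent_le (by norm_num) ?_
    nlinarith
  · rw [← Real.rpow_natCast, hd]
    refine Real.rpow_le_rpow_of_exponent_le (by norm_num) ?_
    linarith
  · rw [← Real.rpow_natCast]
    exact Real.rpow_le_rpow_of_exponent_le (by norm_num) hdiff
  · rw [← Real.rpow_natCast, hd]
    have h4 : (4 : ℝ) = (2 : ℝ) ^ (2 : ℝ) := by norm_num
    rw [h4, ← Real.rpow_add (by norm_num)]
    refine Real.rpow_le_rpow_of_exponent_le (by norm_num) ?_
    rw [hsub]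
    nlinarith
  · unfold Par.nsel
    refine Nat.ceil_le.2 ?_
    push_cast
    calc (2 : ℝ) ^ (P.e k - P.e' k) * (2 : ℝ) ^ (-(P.g * k)) ≤ (2 : ℝ) ^ (P.e k - P.e' k) * 1 :=
          mul_le_mul_of_nonneg_left hpow (by positivity)
      _ = _ := mul_one _
  · exact h.nsel_pos k
  · unfold Par.nsel
    have := Nat.ceil_lt_add_one
      (show (0 : ℝ) ≤ (2 : ℝ) ^ (P.e k - P.e' k) * (2 : ℝ) ^ (-(P.g * k)) by positivity)
    linarith

end Pool.Agent.Helper46.QRH
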